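import Pool.Agent.H88.PHI.Defs

set_option autoImplicit false

namespace Pool.Agent.H88.PHI

/-- `WeakAbc`: the abc inequality with some exponent `κ` and some constant `K`. -/
def WeakAbc : Prop :=
  ∃ κ K : ℝ, ∀ a b : ℕ, 0 < a → 0 < b → Nat.Coprime a b →
    ((a + b : ℕ) : ℝ) ≤ K * ((∏ p ∈ (a * b * (a + b)).primeFactors, p : ℕ) : ℝ) ^ κ

/-- The left-hand side sum is the logarithm of the numerator. -/
lemma lhs_eq (r : ℚ) (hr : r ≠ 0) :
    -(∑ p ∈ r.num.natAbs.primeFactors, Real.log ((padicNorm p r : ℚ) : ℝ))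
      = Real.log (r.num.natAbs : ℝ) := by
  have hn : r.num ≠ 0 := Rat.num_ne_zero.mpr hr
  rw [Real.log_nat_eq_sum_factorization, Finsupp.sum, Nat.support_factorization,
    ← Finset.sum_neg_distrib]
  refine Finset.sum_congr rfl ?_
  intro p hp
  have hpp : p.Prime := Nat.prime_of_mem_primeFactors hp
  have hpd : p ∣ r.num.natAbs := Nat.dvd_of_mem_primeFactors hp
  have : Fact p.Prime := ⟨hpp⟩
  have hpden : ¬ p ∣ r.den := by
    intro hd
    have h1 := r.reduced
    exact Nat.not_coprime_of_dvd_of_dvd hpp.one_lt hpd hd h1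
  have hval : padicValRat p r = (r.num.natAbs.factorization p : ℤ) := by
    rw [padicValRat_def, padicValNat.eq_zero_of_not_dvd hpden, padicValInt,
      Nat.factorization_def _ hpp]
    simp
  rw [padicNorm.eq_zpow_of_nonzero hr, hval]
  push_cast
  rw [Real.log_zpow]
  push_cast
  ring

/-- radical -/
def rad (n : ℕ) : ℕ := ∏ p ∈ n.primeFactors, p

lemma rad_pos (n : ℕ) : 0 < rad n :=
  Finset.prod_pos fun _ hp => (Nat.prime_of_mem_primeFactors hp).pos

lemma rad_le {n : ℕ} (hn : n ≠ 0) : rad n ≤ n :=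
  Nat.le_of_dvd (Nat.pos_of_ne_zero hn) (Nat.prod_primeFactors_dvd n)

lemma log_rad (n : ℕ) : Real.log (rad n : ℝ) = ∑ p ∈ n.primeFactors, Real.log (p : ℝ) := by
  unfold rad
  push_cast
  rw [Real.log_prod]
  intro p hp
  have := (Nat.prime_of_mem_primeFactors hp).pos
  positivity

lemma rad_dvd {n m : ℕ} (h : ∀ p, p.Prime → p ∣ n → p ∣ m) : rad n ∣ m := by
  apply Finset.prod_primes_dvd
  · intro p hp
    exact (Nat.prime_of_mem_primeFactors hp).prime
  · intro p hp
    exact h p (Nat.prime_of_mem_primeFactors hp) (Nat.dvd_of_mem_primeFactors hp)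

lemma dvd_rad {n p : ℕ} (hn : n ≠ 0) (hp : p.Prime) (h : p ∣ n) : p ∣ rad n :=
  Finset.dvd_prod_of_mem _ (Nat.mem_primeFactors.2 ⟨hp, h, hn⟩)

/-- `B`-th power part and remainder. -/
lemma split_pow {B : ℕ} (hB : 0 < B) (a : ℕ) (ha : 0 < a) :
    ∃ u v : ℕ, 0 < u ∧ 0 < v ∧ a = u * v ^ B ∧ u ≤ rad a ^ B := by
  refine ⟨∏ p ∈ a.primeFactors, p ^ (a.factorization p % B),
    ∏ p ∈ a.primeFactors, p ^ (a.factorization p / B), ?_, ?_, ?_, ?_⟩
  · exact Finset.prod_pos fun p hp => pow_pos (Nat.prime_of_mem_primeFactors hp).pos _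
  · exact Finset.prod_pos fun p hp => pow_pos (Nat.prime_of_mem_primeFactors hp).pos _
  · rw [← Finset.prod_pow, ← Finset.prod_mul_distrib]
    conv_lhs => rw [← Nat.prod_factorization_pow_eq_self ha.ne']
    rw [Finsupp.prod, Nat.support_factorization]
    apply Finset.prod_congr rfl
    intro p _
    rw [← pow_mul, ← pow_add]
    congr 1
    rw [mul_comm (a.factorization p / B) B]
    exact (Nat.mod_add_div _ _).symm
  · unfold rad
    rw [← Finset.prod_pow]
    apply Finset.prod_le_prod' 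
    intro p hp
    apply Nat.pow_le_pow_right (Nat.prime_of_mem_primeFactors hp).pos
    exact (Nat.mod_lt _ hB).le

lemma rad_mono_dvd {n m : ℕ} (hm : m ≠ 0) (h : n ∣ m) : rad n ≤ rad m := by
  apply Nat.le_of_dvd (rad_pos m)
  apply rad_dvd
  intro p hp hpn
  exact dvd_rad hm hp (hpn.trans h)

/-- Any instance of the inequality with `ε < 1` gives weak abc. -/
lemma weakAbc_of_holds {B : ℕ} (hB : 0 < B) {α β ε : ℝ} (hα : 0 ≤ α) (hβ : 0 ≤ β) (hε : 0 ≤ ε)
    (hε1 : ε < 1) (h : Holds B α β ε) : WeakAbc := by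
  have hB1 : (1 : ℝ) ≤ B := by exact_mod_cast hB
  set M : ℝ := B * (α * B + ε) with hM
  have hM0 : 0 ≤ M := by positivity
  set κ : ℝ := (α * B * B + M) / (1 - ε) with hκ
  have h1ε : 0 < 1 - ε := by linarith
  have hκ0 : 0 ≤ κ := by positivity
  set T : ℝ := M * β / (1 - ε) with hT
  have hT0 : 0 ≤ T := by positivity
  refine ⟨κ, 2 * Real.exp T, ?_⟩
  intro a b ha hb hcop
  have hc0 : a * b * (a + b) ≠ 0 := by positivity
  change ((a + b : ℕ) : ℝ) ≤ 2 * Real.exp T * (rad (a * b * (a + b)) : ℝ) ^ κ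
  set R := rad (a * b * (a + b)) with hR
  have hR1 : (1 : ℝ) ≤ R := by exact_mod_cast rad_pos _
  have hRκ : (1 : ℝ) ≤ (R : ℝ) ^ κ := Real.one_le_rpow hR1 hκ0
  have hexpT : (1 : ℝ) ≤ Real.exp T := Real.one_le_exp hT0
  by_cases hab : a = b
  · have ha1 : a = 1 := by
      rw [← hab] at hcop
      exact (Nat.coprime_self a).1 hcop
    have e : ((a + b : ℕ) : ℝ) = 2 := by rw [← hab, ha1]; norm_num
    rw [e]
    nlinarith
  obtain ⟨a0, a1, ha0, ha1, haa, hale⟩ := split_pow hB a ha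
  obtain ⟨b0, b1, hb0, hb1, hbb, hble⟩ := split_pow hB b hb
  have hcop0 : Nat.Coprime a0 b0 :=
    Nat.Coprime.coprime_dvd_left (Dvd.intro _ haa.symm)
      (Nat.Coprime.coprime_dvd_right (Dvd.intro _ hbb.symm) hcop)
  have hcop1 : Nat.Coprime a1 b1 := by
    have h1 : a1 ∣ a := by
      rw [haa]; exact Dvd.dvd.mul_left (dvd_pow_self _ hB.ne') _
    have h2 : b1 ∣ b := by
      rw [hbb]; exact Dvd.dvd.mul_left (dvd_pow_self _ hB.ne') _
    exact Nat.Coprime.coprime_dvd_left h1 (Nat.Coprime.coprime_dvd_right h2 hcop)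
  set x : ℚ := ((a0 : ℤ) : ℚ) / ((b0 : ℤ) : ℚ) with hx
  set y : ℚ := ((a1 : ℤ) : ℚ) / ((b1 : ℤ) : ℚ) with hy
  have hxn : x.num = a0 := Rat.num_div_eq_of_coprime (by exact_mod_cast hb0) (by simpa using hcop0)
  have hxd : (x.den : ℤ) = b0 :=
    Rat.den_div_eq_of_coprime (by exact_mod_cast hb0) (by simpa using hcop0)
  have hyn : y.num = a1 := Rat.num_div_eq_of_coprime (by exact_mod_cast hb1) (by simpa using hcop1)
  have hyd : (y.den : ℤ) = b1 :=
    Rat.den_div_eq_of_coprime (by exact_mod_cast hb1) (by simpa using hcop1)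
  have hxd' : x.den = b0 := by exact_mod_cast hxd
  have hyd' : y.den = b1 := by exact_mod_cast hyd
  have hbq : (b : ℚ) ≠ 0 := by positivity
  have hxy : x * y ^ B = (a : ℚ) / b := by
    rw [hx, hy, haa, hbb]
    push_cast
    rw [div_pow, div_mul_div_comm]
  have hapos : (0 : ℚ) < (a : ℚ) / b := by positivity
  have hx0 : x ≠ 0 := by rw [hx]; positivity
  have hy0 : y ≠ 0 := by rw [hy]; positivity
  have hne1 : x * y ^ B ≠ 1 := by
    rw [hxy]
    intro hcontra
    rw [div_eq_one_iff_eq hbq] at hcontra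
    exact hab (by exact_mod_cast hcontra)
  have hne2 : x * y ^ B ≠ -1 := by
    rw [hxy]; intro hcontra; linarith
  have hmain := h x y hx0 hy0 hne1 hne2
  have hsum : x * y ^ B + 1 = (((a + b : ℕ) : ℤ) : ℚ) / ((b : ℤ) : ℚ) := by
    rw [hxy]; push_cast; field_simp
  have hcopc : Nat.Coprime (a + b) b := by simpa using hcop
  have hnum : (x * y ^ B + 1).num = ((a + b : ℕ) : ℤ) := by
    rw [hsum]
    exact Rat.num_div_eq_of_coprime (by exact_mod_cast hb)
      (by rw [Int.natAbs_natCast, Int.natAbs_natCast]; exact hcopc)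
  have hne0 : x * y ^ B + 1 ≠ 0 := by
    intro hcontra; apply hne2; linarith
  rw [lhs_eq _ hne0, ← log_rad, hnum, hxn, hyn, hxd', hyd', Int.natAbs_natCast] at hmain
  rw [← hM] at hmain
  -- bounds
  have hRa : rad a ≤ R := rad_mono_dvd hc0 ⟨b * (a + b), by ring⟩
  have hRb : rad b ≤ R := rad_mono_dvd hc0 ⟨a * (a + b), by ring⟩
  have hRc : rad (a + b) ≤ R := rad_mono_dvd hc0 ⟨a * b, by ring⟩
  have hlogR : 0 ≤ Real.log R := Real.log_nonneg hR1
  have hh1 : Real.log (max |(((a0 : ℕ) : ℤ) : ℝ)| ((b0 : ℕ) : ℝ)) ≤ B * Real.log R := by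
    rw [← Real.log_pow]
    apply Real.log_le_log
    · have : (0 : ℝ) < b0 := by exact_mod_cast hb0
      exact lt_of_lt_of_le this (le_max_right _ _)
    · apply max_le
      · have : a0 ≤ R ^ B := hale.trans (Nat.pow_le_pow_left hRa B)
        rw [abs_of_nonneg (by positivity)]
        exact_mod_cast this
      · have : b0 ≤ R ^ B := hble.trans (Nat.pow_le_pow_left hRb B)
        exact_mod_cast this
  have hh2 : B * Real.log (max |(((a1 : ℕ) : ℤ) : ℝ)| ((b1 : ℕ) : ℝ))
      ≤ Real.log ((a + b : ℕ) : ℝ) := by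
    rw [← Real.log_pow]
    have hpos : (0 : ℝ) < max |(((a1 : ℕ) : ℤ) : ℝ)| ((b1 : ℕ) : ℝ) := by
      have : (0 : ℝ) < b1 := by exact_mod_cast hb1
      exact lt_of_lt_of_le this (le_max_right _ _)
    apply Real.log_le_log (pow_pos hpos _)
    rcases max_choice |(((a1 : ℕ) : ℤ) : ℝ)| ((b1 : ℕ) : ℝ) with hmax | hmax
    · rw [hmax, abs_of_nonneg (by positivity)]
      have : a1 ^ B ≤ a + b := by
        have h1 : a1 ^ B ≤ a := by
          rw [haa]; exact Nat.le_mul_of_pos_left _ ha0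
        omega
      exact_mod_cast this
    · rw [hmax]
      have : b1 ^ B ≤ a + b := by
        have h1 : b1 ^ B ≤ b := by
          conv_rhs => rw [hbb]
          exact Nat.le_mul_of_pos_left _ hb0
        omega
      exact_mod_cast this
  have hh3 : Real.log (rad (a + b) : ℝ) ≤ Real.log R := by
    apply Real.log_le_log
    · exact_mod_cast rad_pos _
    · exact_mod_cast hRc
  set c := Real.log ((a + b : ℕ) : ℝ) with hc
  have hkey : (1 - ε) * c ≤ (α * B * B + M) * Real.log R + M * β := by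
    have t1 : α * B * Real.log (max |(((a0 : ℕ) : ℤ) : ℝ)| ((b0 : ℕ) : ℝ))
        ≤ α * B * (B * Real.log R) := mul_le_mul_of_nonneg_left hh1 (by positivity)
    have t2 : ε * B * Real.log (max |(((a1 : ℕ) : ℤ) : ℝ)| ((b1 : ℕ) : ℝ)) ≤ ε * c := by
      rw [mul_assoc]; exact mul_le_mul_of_nonneg_left hh2 hε
    have t3 : M * (β + Real.log (rad (a + b) : ℝ)) ≤ M * (β + Real.log R) :=
      mul_le_mul_of_nonneg_left (by linarith) hM0
    nlinarith
  have hkey2 : c ≤ κ * Real.log R + T := by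
    have : c ≤ ((α * B * B + M) * Real.log R + M * β) / (1 - ε) := by
      rw [le_div_iff₀ h1ε]; linarith
    refine this.trans (le_of_eq ?_)
    rw [hκ, hT]; field_simp
  have habpos : (0 : ℝ) < ((a + b : ℕ) : ℝ) := by positivity
  have hRpos : (0 : ℝ) < R := by linarith
  calc ((a + b : ℕ) : ℝ) = Real.exp c := (Real.exp_log habpos).symm
    _ ≤ Real.exp (κ * Real.log R + T) := Real.exp_le_exp.2 hkey2
    _ = Real.exp T * (R : ℝ) ^ κ := by
        rw [Real.exp_add, Real.rpow_def_of_pos hRpos, mul_comm κ, mul_comm]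
    _ ≤ 2 * Real.exp T * (R : ℝ) ^ κ := by nlinarith

/-- Elementary fact on `z` and `z + 1`. -/
lemma num_den_add_one (z : ℚ) : (z + 1).num = z.num + z.den ∧ (z + 1).den = z.den := by
  have hd : (z.den : ℤ) ≠ 0 := by exact_mod_cast z.den_ne_zero
  have hdp : (0 : ℤ) < (z.den : ℤ) := by exact_mod_cast z.den_pos
  have e : z + 1 = ((z.num + z.den : ℤ) : ℚ) / ((z.den : ℤ) : ℚ) := by
    have h1 : z = (z.num : ℚ) / ((z.den : ℤ) : ℚ) := by
      push_cast
      exact (Rat.num_div_den z).symm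
    have hdq : ((z.den : ℤ) : ℚ) ≠ 0 := by exact_mod_cast hd
    push_cast at *
    rw [add_div, div_self hdq, Rat.num_div_den]
  have hcop : Nat.Coprime (z.num + z.den : ℤ).natAbs ((z.den : ℤ)).natAbs := by
    have h1 : IsCoprime (z.num : ℤ) (z.den : ℤ) := by
      rw [Int.isCoprime_iff_gcd_eq_one]
      simpa [Int.gcd] using z.reduced
    have h2 : IsCoprime (z.num + z.den : ℤ) (z.den : ℤ) := by
      simpa using h1.add_mul_right_left 1
    exact Int.isCoprime_iff_gcd_eq_one.1 h2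
  refine ⟨?_, ?_⟩
  · rw [e]; exact Rat.num_div_eq_of_coprime hdp hcop
  · have := Rat.den_div_eq_of_coprime hdp hcop
    rw [← e] at this
    exact_mod_cast this

/-- Weak abc gives the inequality for all large `B`, whatever `α, ε > 0`. -/
lemma holds_of_weakAbc (h : WeakAbc) :
    ∀ α ε : ℝ, 0 < α → 0 < ε → ∃ B₀ : ℕ, ∀ B : ℕ, B₀ ≤ B → ∀ β : ℝ, 0 ≤ β → Holds B α β ε := by
  obtain ⟨κ0, K0, hK⟩ := h
  set κ := max κ0 1 with hκ
  set K := max K0 1 with hKdef
  have hκ1 : 1 ≤ κ := le_max_right _ _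
  have hK1 : 1 ≤ K := le_max_right _ _
  have hlogK : 0 ≤ Real.log K := Real.log_nonneg hK1
  have hlog2 : 0 < Real.log 2 := Real.log_pos (by norm_num)
  have habc : ∀ a b : ℕ, 0 < a → 0 < b → Nat.Coprime a b →
      Real.log ((a + b : ℕ) : ℝ) ≤ Real.log K + κ * Real.log (rad (a * b * (a + b)) : ℝ) := by
    intro a b ha hb hab
    have hR1 : (1 : ℝ) ≤ (rad (a * b * (a + b)) : ℝ) := by exact_mod_cast rad_pos _
    have hR0 : (0 : ℝ) < (rad (a * b * (a + b)) : ℝ) := by linarith
    have h1 : ((a + b : ℕ) : ℝ) ≤ K0 * (rad (a * b * (a + b)) : ℝ) ^ κ0 := hK a b ha hb hab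
    have h2 : K0 * (rad (a * b * (a + b)) : ℝ) ^ κ0 ≤ K * (rad (a * b * (a + b)) : ℝ) ^ κ := by
      have h3 : (rad (a * b * (a + b)) : ℝ) ^ κ0 ≤ (rad (a * b * (a + b)) : ℝ) ^ κ :=
        Real.rpow_le_rpow_of_exponent_le hR1 (le_max_left _ _)
      have h4 : 0 ≤ (rad (a * b * (a + b)) : ℝ) ^ κ0 := Real.rpow_nonneg hR0.le _
      calc K0 * (rad (a * b * (a + b)) : ℝ) ^ κ0 ≤ K * (rad (a * b * (a + b)) : ℝ) ^ κ0 :=
            mul_le_mul_of_nonneg_right (le_max_left _ _) h4
        _ ≤ K * (rad (a * b * (a + b)) : ℝ) ^ κ := mul_le_mul_of_nonneg_left h3 (by linarith)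
    have hpos : (0 : ℝ) < ((a + b : ℕ) : ℝ) := by positivity
    calc Real.log ((a + b : ℕ) : ℝ) ≤ Real.log (K * (rad (a * b * (a + b)) : ℝ) ^ κ) :=
          Real.log_le_log hpos (h1.trans h2)
      _ = Real.log K + κ * Real.log (rad (a * b * (a + b)) : ℝ) := by
          rw [Real.log_mul (by linarith) (Real.rpow_pos_of_pos hR0 _).ne', Real.log_rpow hR0]
  intro α ε hα hε
  obtain ⟨B₀, hB₀⟩ := exists_nat_ge (1 + 2 * κ / α + 2 * κ / ε + (κ + Real.log K / Real.log 2))
  refine ⟨B₀, ?_⟩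
  intro B hBB β hβ x y hx hy hz1 hz2
  have hBr : 1 + 2 * κ / α + 2 * κ / ε + (κ + Real.log K / Real.log 2) ≤ (B : ℝ) :=
    hB₀.trans (by exact_mod_cast hBB)
  have hq1 : 0 ≤ 2 * κ / α := by positivity
  have hq2 : 0 ≤ 2 * κ / ε := by positivity
  have hq3 : 0 ≤ Real.log K / Real.log 2 := by positivity
  have hB1 : (1 : ℝ) ≤ B := by linarith
  have hαB : 2 * κ ≤ α * B := by
    have : 2 * κ / α ≤ B := by linarith
    rw [div_le_iff₀ hα] at this; linarith
  have hεB : 2 * κ ≤ ε * B := by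
    have : 2 * κ / ε ≤ B := by linarith
    rw [div_le_iff₀ hε] at this; linarith
  have hBc : κ + Real.log K / Real.log 2 ≤ B := by linarith
  set z := x * y ^ B with hz
  have hz0 : z ≠ 0 := mul_ne_zero hx (pow_ne_zero _ hy)
  have hw0 : z + 1 ≠ 0 := by
    intro hcontra; apply hz2; linarith
  obtain ⟨hnum, hden⟩ := num_den_add_one z
  rw [lhs_eq _ hw0, ← log_rad]
  set n := (z + 1).num.natAbs with hn
  have hn0 : 0 < n := Int.natAbs_pos.2 (Rat.num_ne_zero.2 hw0)
  set a := z.num.natAbs with ha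
  have ha0 : 0 < a := Int.natAbs_pos.2 (Rat.num_ne_zero.2 hz0)
  set d := z.den with hd
  have hd0 : 0 < d := z.den_pos
  -- heights
  have hxn0 : 0 < x.num.natAbs := Int.natAbs_pos.2 (Rat.num_ne_zero.2 hx)
  have hyn0 : 0 < y.num.natAbs := Int.natAbs_pos.2 (Rat.num_ne_zero.2 hy)
  have hxa : |((x.num : ℤ) : ℝ)| = (x.num.natAbs : ℝ) := by
    rw [Nat.cast_natAbs]; push_cast; rfl
  have hya : |((y.num : ℤ) : ℝ)| = (y.num.natAbs : ℝ) := by
    rw [Nat.cast_natAbs]; push_cast; rfl
  rw [hxa, hya]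
  set hX := Real.log (max (x.num.natAbs : ℝ) (x.den : ℝ)) with hhX
  set hY := Real.log (max (y.num.natAbs : ℝ) (y.den : ℝ)) with hhY
  have hxn1 : (1 : ℝ) ≤ (x.num.natAbs : ℝ) := by exact_mod_cast hxn0
  have hyn1 : (1 : ℝ) ≤ (y.num.natAbs : ℝ) := by exact_mod_cast hyn0
  have hxd1 : (1 : ℝ) ≤ (x.den : ℝ) := by exact_mod_cast x.den_pos
  have hyd1 : (1 : ℝ) ≤ (y.den : ℝ) := by exact_mod_cast y.den_pos
  have hX1 : Real.log (x.num.natAbs : ℝ) ≤ hX := Real.log_le_log (by linarith) (le_max_left _ _)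
  have hX2 : Real.log (x.den : ℝ) ≤ hX := Real.log_le_log (by linarith) (le_max_right _ _)
  have hY1 : Real.log (y.num.natAbs : ℝ) ≤ hY := Real.log_le_log (by linarith) (le_max_left _ _)
  have hY2 : Real.log (y.den : ℝ) ≤ hY := Real.log_le_log (by linarith) (le_max_right _ _)
  have hX0 : 0 ≤ hX := (Real.log_nonneg hxn1).trans hX1
  have hY0 : 0 ≤ hY := (Real.log_nonneg hyn1).trans hY1
  set M : ℝ := (B : ℝ) * (α * B + ε) with hM
  have hM0 : 0 ≤ M := by positivity
  have hradn1 : (1 : ℝ) ≤ (rad n : ℝ) := by exact_mod_cast rad_pos n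
  have hlrn : 0 ≤ Real.log (rad n : ℝ) := Real.log_nonneg hradn1
  have hMκ : κ + Real.log K / Real.log 2 ≤ M := by
    have h1 : (B : ℝ) ≤ M := by
      rw [hM]
      have : (1 : ℝ) ≤ α * B + ε := by linarith
      nlinarith
    linarith
  by_cases hn1 : n = 1
  · rw [hn1]
    have e1 : Real.log ((1 : ℕ) : ℝ) = 0 := by simp
    rw [e1]
    have e2 : 0 ≤ Real.log (rad 1 : ℝ) := by simp [rad]
    positivity
  have hn2 : 2 ≤ n := by omega
  have hrad2 : 2 ≤ rad n := by
    obtain ⟨p, hp, hpn⟩ := Nat.exists_prime_and_dvd hn1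
    exact hp.two_le.trans (Nat.le_of_dvd (rad_pos n) (dvd_rad hn0.ne' hp hpn))
  have hlog2n : Real.log 2 ≤ Real.log (rad n : ℝ) := by
    apply Real.log_le_log (by norm_num)
    exact_mod_cast hrad2
  -- the abc triple
  have htriple : Real.log (n : ℝ) ≤ Real.log K + κ * Real.log (rad (n * a * d) : ℝ) := by
    have hcad : Nat.Coprime a d := z.reduced
    have hcnd : Nat.Coprime n d := by
      have := (z + 1).reduced
      rw [hden] at this
      exact this
    have hca : (a : ℤ) = |z.num| := by rw [ha]; exact Int.natCast_natAbs _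
    have hcn : (n : ℤ) = |(z + 1).num| := by rw [hn]; exact Int.natCast_natAbs _
    rcases lt_or_gt_of_ne (Rat.num_ne_zero.2 hz0) with hneg | hpos
    · rcases lt_or_gt_of_ne (Rat.num_ne_zero.2 hw0) with hneg' | hpos'
      · -- a = n + d
        have hsum : n + d = a := by
          have : (n : ℤ) + d = a := by
            rw [hca, hcn, abs_of_neg hneg, abs_of_neg hneg', hnum]; ring
          exact_mod_cast this
        have h1 := habc n d hn0 hd0 hcnd
        rw [hsum] at h1
        have e : n * d * a = n * a * d := by ring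
        rw [e] at h1
        refine le_trans (Real.log_le_log (by exact_mod_cast hn0) ?_) h1
        exact_mod_cast (by omega : n ≤ a)
      · -- d = n + a
        have hsum : n + a = d := by
          have : (n : ℤ) + a = d := by
            rw [hca, hcn, abs_of_neg hneg, abs_of_pos hpos', hnum]; ring
          exact_mod_cast this
        have hcna : Nat.Coprime n a := by
          have h1 : Nat.Coprime n d := hcnd
          rw [← hsum] at h1
          simpa using h1
        have h1 := habc n a hn0 ha0 hcna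
        rw [hsum] at h1
        refine le_trans (Real.log_le_log (by exact_mod_cast hn0) ?_) h1
        exact_mod_cast (by omega : n ≤ d)
    · have hpos' : 0 < (z + 1).num := by
        rw [hnum]; positivity
      have hsum : a + d = n := by
        have : (a : ℤ) + d = n := by
          rw [hca, hcn, abs_of_pos hpos, abs_of_pos hpos', hnum]
        exact_mod_cast this
      have h1 := habc a d ha0 hd0 hcad
      rw [hsum] at h1
      have e : a * d * n = n * a * d := by ring
      rw [e] at h1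
      exact h1
  -- radical bound
  have hzn : a ∣ x.num.natAbs * y.num.natAbs ^ B := by
    have h1 : z.num ∣ x.num * (y ^ B).num := by
      have := Rat.mul_num x (y ^ B)
      rw [hz, this]
      exact Int.ediv_dvd_of_dvd (Int.natCast_dvd.2 (Nat.gcd_dvd_left ..))
    rw [Rat.num_pow] at h1
    have h2 := Int.natAbs_dvd_natAbs.2 h1
    rwa [Int.natAbs_mul, Int.natAbs_pow] at h2
  have hzd : d ∣ x.den * y.den ^ B := by
    have h1 : z.den ∣ x.den * (y ^ B).den := by
      have := Rat.mul_den x (y ^ B)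
      rw [hz, this]
      exact Nat.div_dvd_of_dvd (Nat.gcd_dvd_right ..)
    rwa [Rat.den_pow] at h1
  have hraddvd : rad (n * a * d) ∣ rad n * ((x.num.natAbs * y.num.natAbs) * (x.den * y.den)) := by
    apply rad_dvd
    intro p hp hpd
    rcases (Nat.Prime.dvd_mul hp).1 hpd with h1 | h1
    · rcases (Nat.Prime.dvd_mul hp).1 h1 with h2 | h2
      · exact Dvd.dvd.mul_right (dvd_rad hn0.ne' hp h2) _
      · apply Dvd.dvd.mul_left
        apply Dvd.dvd.mul_right
        rcases (Nat.Prime.dvd_mul hp).1 (h2.trans hzn) with h3 | h3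
        · exact Dvd.dvd.mul_right h3 _
        · exact Dvd.dvd.mul_left (hp.dvd_of_dvd_pow h3) _
    · apply Dvd.dvd.mul_left
      apply Dvd.dvd.mul_left
      rcases (Nat.Prime.dvd_mul hp).1 (h1.trans hzd) with h3 | h3
      · exact Dvd.dvd.mul_right h3 _
      · exact Dvd.dvd.mul_left (hp.dvd_of_dvd_pow h3) _
  have hradle : Real.log (rad (n * a * d) : ℝ) ≤ Real.log (rad n : ℝ) + (2 * hX + 2 * hY) := by
    have h1 : rad (n * a * d) ≤ rad n * ((x.num.natAbs * y.num.natAbs) * (x.den * y.den)) := by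
      apply Nat.le_of_dvd _ hraddvd
      have := rad_pos n
      have h3 := x.den_pos
      have h4 := y.den_pos
      positivity
    have h2 : (rad (n * a * d) : ℝ) ≤
        (rad n : ℝ) * (((x.num.natAbs : ℝ) * (y.num.natAbs : ℝ)) * ((x.den : ℝ) * (y.den : ℝ))) := by
      exact_mod_cast h1
    have h0 : (0 : ℝ) < (rad (n * a * d) : ℝ) := by exact_mod_cast rad_pos _
    have h3 := Real.log_le_log h0 h2
    have g1 : (rad n : ℝ) ≠ 0 := by linarith
    have g2 : (x.num.natAbs : ℝ) ≠ 0 := by linarith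
    have g3 : (y.num.natAbs : ℝ) ≠ 0 := by linarith
    have g4 : (x.den : ℝ) ≠ 0 := by linarith
    have g5 : (y.den : ℝ) ≠ 0 := by linarith
    rw [Real.log_mul g1 (by positivity), Real.log_mul (by positivity) (by positivity),
      Real.log_mul g2 g3, Real.log_mul g4 g5] at h3
    linarith
  have hκ0 : 0 ≤ κ := by linarith
  have f1 : κ * Real.log (rad (n * a * d) : ℝ)
      ≤ κ * (Real.log (rad n : ℝ) + (2 * hX + 2 * hY)) := mul_le_mul_of_nonneg_left hradle hκ0
  have f2 : 2 * κ * hX ≤ α * B * hX := mul_le_mul_of_nonneg_right hαB hX0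
  have f3 : 2 * κ * hY ≤ ε * B * hY := mul_le_mul_of_nonneg_right hεB hY0
  have f4 : (κ + Real.log K / Real.log 2) * Real.log (rad n : ℝ) ≤ M * Real.log (rad n : ℝ) :=
    mul_le_mul_of_nonneg_right hMκ hlrn
  have f5 : Real.log K ≤ Real.log K / Real.log 2 * Real.log (rad n : ℝ) := by
    calc Real.log K = Real.log K / Real.log 2 * Real.log 2 := by field_simp
      _ ≤ _ := mul_le_mul_of_nonneg_left hlog2n hq3
  have f6 : 0 ≤ M * β := mul_nonneg hM0 hβ
  have f7 : κ * (Real.log (rad n : ℝ) + (2 * hX + 2 * hY))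
      = κ * Real.log (rad n : ℝ) + 2 * κ * hX + 2 * κ * hY := by ring
  have f8 : M * (β + Real.log (rad n : ℝ)) = M * β + M * Real.log (rad n : ℝ) := by ring
  have f9 : (κ + Real.log K / Real.log 2) * Real.log (rad n : ℝ)
      = κ * Real.log (rad n : ℝ) + Real.log K / Real.log 2 * Real.log (rad n : ℝ) := by ring
  rw [f8]
  rw [f7] at f1
  rw [f9] at f4
  linarith

end Pool.Agent.H88.PHI
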