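import Mathlib

set_option autoImplicit false

namespace Pool.Agent.H88.PHI

/-- `Holds B α β ε`: the inequality of Q1 for all nonzero rationals `x, y` with
`x y^B ≠ 1` and `x y^B ≠ -1`, `S` being the set of primes dividing the numerator of `x y^B + 1`. -/
def Holds (B : ℕ) (α β ε : ℝ) : Prop :=
  ∀ x y : ℚ, x ≠ 0 → y ≠ 0 → x * y ^ B ≠ 1 → x * y ^ B ≠ -1 →
    -(∑ p ∈ (x * y ^ B + 1).num.natAbs.primeFactors,
        Real.log ((padicNorm p (x * y ^ B + 1) : ℚ) : ℝ))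
      ≤ α * (B : ℝ) * Real.log (max |((x.num : ℤ) : ℝ)| ((x.den : ℕ) : ℝ))
        + ε * (B : ℝ) * Real.log (max |((y.num : ℤ) : ℝ)| ((y.den : ℕ) : ℝ))
        + (B : ℝ) * (α * (B : ℝ) + ε) *
            (β + ∑ p ∈ (x * y ^ B + 1).num.natAbs.primeFactors, Real.log (p : ℝ))

/-- The multiplicative height of a rational number: `max(|numerator|, denominator)`. -/
def height (x : ℚ) : ℝ := max |((x.num : ℤ) : ℝ)| ((x.den : ℕ) : ℝ)

end Pool.Agent.H88.PHI
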