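import Pool.Agent.H88.PHI.Base

set_option autoImplicit false

namespace Pool.Agent.H88.PHI

/-! ### Weak abc in logarithmic form -/

lemma weakAbc_log (h : WeakAbc) : ∃ κ K : ℝ, 1 ≤ κ ∧ 0 ≤ K ∧
    ∀ a b : ℕ, 0 < a → 0 < b → Nat.Coprime a b →
      Real.log ((a + b : ℕ) : ℝ) ≤ K + κ * Real.log (rad (a * b * (a + b)) : ℝ) := by
  obtain ⟨κ0, K0, hK⟩ := h
  set κ := max κ0 1 with hκ
  set K := max K0 1 with hKdef
  have hκ1 : 1 ≤ κ := le_max_right _ _
  have hK1 : 1 ≤ K := le_max_right _ _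
  have hlogK : 0 ≤ Real.log K := Real.log_nonneg hK1
  refine ⟨κ, Real.log K, hκ1, hlogK, ?_⟩
  intro a b ha hb hab
  have hR1 : (1 : ℝ) ≤ (rad (a * b * (a + b)) : ℝ) := by exact_mod_cast rad_pos _
  have hR0 : (0 : ℝ) < (rad (a * b * (a + b)) : ℝ) := by linarith
  have h1 : ((a + b : ℕ) : ℝ) ≤ K0 * (rad (a * b * (a + b)) : ℝ) ^ κ0 := hK a b ha hb hab
  have h2 : K0 * (rad (a * b * (a + b)) : ℝ) ^ κ0 ≤ K * (rad (a * b * (a + b)) : ℝ) ^ κ := by
    have h3 : (rad (a * b * (a + b)) : ℝ) ^ κ0 ≤ (rad (a * b * (a + b)) : ℝ) ^ κ :=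
      Real.rpow_le_rpow_of_exponent_le hR1 (le_max_left _ _)
    have h4 : 0 ≤ (rad (a * b * (a + b)) : ℝ) ^ κ0 := Real.rpow_nonneg hR0.le _
    calc K0 * (rad (a * b * (a + b)) : ℝ) ^ κ0 ≤ K * (rad (a * b * (a + b)) : ℝ) ^ κ0 :=
          mul_le_mul_of_nonneg_right (le_max_left _ _) h4
      _ ≤ K * (rad (a * b * (a + b)) : ℝ) ^ κ := mul_le_mul_of_nonneg_left h3 (by linarith)
  have hpos : (0 : ℝ) < ((a + b : ℕ) : ℝ) := by positivity
  calc Real.log ((a + b : ℕ) : ℝ) ≤ Real.log (K * (rad (a * b * (a + b)) : ℝ) ^ κ) :=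
        Real.log_le_log hpos (h1.trans h2)
    _ = Real.log K + κ * Real.log (rad (a * b * (a + b)) : ℝ) := by
        rw [Real.log_mul (by linarith) (Real.rpow_pos_of_pos hR0 _).ne', Real.log_rpow hR0]

/-! ### Exponents -/

lemma exists_exp {p n : ℕ} (hp : 0 < p) (h : Nat.Coprime p n) : ∃ s, n ∣ s ∧ p ∣ s + 1 := by
  obtain ⟨k, hk1, hk2⟩ := Nat.chineseRemainder h (p - 1) 0
  refine ⟨k, (Nat.modEq_zero_iff_dvd).1 hk2, ?_⟩
  rw [← Nat.modEq_zero_iff_dvd]
  have h1 : k + 1 ≡ (p - 1) + 1 [MOD p] := Nat.ModEq.add_right 1 hk1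
  rw [Nat.sub_add_cancel hp] at h1
  exact h1.trans ((Nat.modEq_zero_iff_dvd).2 dvd_rfl)

lemma div_step {ν k p x : ℕ} (hp : 0 < p) (h : ν ^ (k * p) ∣ x ^ p) : ∃ x', x = ν ^ k * x' := by
  rw [pow_mul] at h
  exact (Nat.pow_dvd_pow_iff hp.ne').1 h

/-- If `lam * a` is a `p`-th power, `lam = μ ν^(k p)`, then `μ * a` is a `p`-th power. -/
lemma root_step {lam μ ν k p a x : ℕ} (hp : 0 < p) (hν : 0 < ν) (h : x ^ p = lam * a)
    (hl : lam = μ * ν ^ (k * p)) : ∃ x', x = ν ^ k * x' ∧ x' ^ p = μ * a := by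
  have h1 : ν ^ (k * p) ∣ x ^ p := by
    rw [h, hl]; exact ⟨μ * a, by ring⟩
  obtain ⟨x', hx'⟩ := div_step hp h1
  refine ⟨x', hx', ?_⟩
  have h2 : 0 < ν ^ (k * p) := pow_pos hν _
  apply Nat.eq_of_mul_eq_mul_left h2
  calc ν ^ (k * p) * x' ^ p = (ν ^ k * x') ^ p := by rw [mul_pow, ← pow_mul]
    _ = lam * a := by rw [← hx', h]
    _ = ν ^ (k * p) * (μ * a) := by rw [hl]; ring

lemma rad_le_of_primes {n m : ℕ} (hm : m ≠ 0) (h : ∀ p, p.Prime → p ∣ n → p ∣ m) :
    rad n ≤ rad m := by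
  apply Nat.le_of_dvd (rad_pos m)
  apply rad_dvd
  intro p hp hpn
  exact dvd_rad hm hp (h p hp hpn)

/-- Conversion of a bound with real exponents. -/
lemma bound_conv {c μ R : ℕ} {N : ℕ} {κ K : ℝ} (hμ : 0 < μ) (hR : 0 < R) (hμR : μ ≤ R ^ N)
    (h : ((μ * c : ℕ) : ℝ) ≤ K * (μ : ℝ) ^ κ) :
    (c : ℝ) ≤ |K| * (R : ℝ) ^ ((N : ℝ) * |κ|) := by
  have hμ0 : (0 : ℝ) < μ := by exact_mod_cast hμ
  have hμ1 : (1 : ℝ) ≤ μ := by exact_mod_cast hμ
  have hR0 : (0 : ℝ) < R := by exact_mod_cast hR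
  have h1 : (μ : ℝ) * c ≤ |K| * (μ : ℝ) ^ (|κ| + 1) := by
    calc (μ : ℝ) * c = ((μ * c : ℕ) : ℝ) := by push_cast; ring
      _ ≤ K * (μ : ℝ) ^ κ := h
      _ ≤ |K| * (μ : ℝ) ^ κ :=
          mul_le_mul_of_nonneg_right (le_abs_self K) (Real.rpow_nonneg hμ0.le _)
      _ ≤ |K| * (μ : ℝ) ^ (|κ| + 1) := by
          apply mul_le_mul_of_nonneg_left _ (abs_nonneg K)
          apply Real.rpow_le_rpow_of_exponent_le hμ1
          have := le_abs_self κ
          linarith
  rw [Real.rpow_add hμ0, Real.rpow_one] at h1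
  have h2 : (c : ℝ) ≤ |K| * (μ : ℝ) ^ |κ| := by
    have h3 : (μ : ℝ) * c ≤ μ * (|K| * (μ : ℝ) ^ |κ|) := by
      calc (μ : ℝ) * c ≤ |K| * ((μ : ℝ) ^ |κ| * μ) := h1
        _ = μ * (|K| * (μ : ℝ) ^ |κ|) := by ring
    exact le_of_mul_le_mul_left h3 hμ0
  refine h2.trans ?_
  apply mul_le_mul_of_nonneg_left _ (abs_nonneg K)
  calc (μ : ℝ) ^ |κ| ≤ ((R : ℝ) ^ N) ^ |κ| := by
        apply Real.rpow_le_rpow hμ0.le _ (abs_nonneg κ)
        exact_mod_cast hμR
    _ = (R : ℝ) ^ ((N : ℝ) * |κ|) := by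
        rw [← Real.rpow_natCast, ← Real.rpow_mul hR0.le]

/-! ### A generalised Fermat equation gives weak abc -/

lemma weakAbc_of_fermat {p q r : ℕ} (hp : 0 < p) (hq : 0 < q) (hr : 0 < r)
    (hpq : Nat.Coprime p q) (hpr : Nat.Coprime p r) (hqr : Nat.Coprime q r) {κ K : ℝ}
    (h : ∀ X Y Z : ℕ, 0 < X → 0 < Y → 0 < Z → X ^ p + Y ^ q = Z ^ r →
      ((Z ^ r : ℕ) : ℝ) ≤ K * ((Nat.gcd (X ^ p) (Y ^ q) : ℕ) : ℝ) ^ κ) : WeakAbc := by
  refine ⟨((p * q * r : ℕ) : ℝ) * |κ|, |K|, ?_⟩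
  intro a b ha hb hab
  change ((a + b : ℕ) : ℝ) ≤ |K| * (rad (a * b * (a + b)) : ℝ) ^ (((p * q * r : ℕ) : ℝ) * |κ|)
  set c := a + b with hc
  have hc0 : 0 < c := by omega
  have habc0 : a * b * c ≠ 0 := by positivity
  obtain ⟨s, hs1, hs2⟩ := exists_exp hp (Nat.Coprime.mul_right hpq hpr)
  obtain ⟨t, ht1, ht2⟩ := exists_exp hq (Nat.Coprime.mul_right hpq.symm hqr)
  obtain ⟨u, hu1, hu2⟩ := exists_exp hr (Nat.Coprime.mul_right hpr.symm hqr.symm)
  set lam := a ^ s * b ^ t * c ^ u with hlam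
  have hlam0 : 0 < lam := by positivity
  -- the three roots
  have hX : ∃ X : ℕ, X ^ p = lam * a := by
    obtain ⟨s', hs'⟩ := hs2
    obtain ⟨t', ht'⟩ : p ∣ t := (dvd_mul_right p r).trans ht1
    obtain ⟨u', hu'⟩ : p ∣ u := (dvd_mul_right p q).trans hu1
    refine ⟨a ^ s' * b ^ t' * c ^ u', ?_⟩
    calc (a ^ s' * b ^ t' * c ^ u') ^ p = a ^ (p * s') * b ^ (p * t') * c ^ (p * u') := by
          rw [mul_pow, mul_pow, ← pow_mul, ← pow_mul, ← pow_mul, mul_comm s', mul_comm t',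
            mul_comm u']
      _ = lam * a := by rw [← hs', ← ht', ← hu', hlam]; ring
  have hY : ∃ Y : ℕ, Y ^ q = lam * b := by
    obtain ⟨t', ht'⟩ := ht2
    obtain ⟨s', hs'⟩ : q ∣ s := (dvd_mul_right q r).trans hs1
    obtain ⟨u', hu'⟩ : q ∣ u := (dvd_mul_left q p).trans hu1
    refine ⟨a ^ s' * b ^ t' * c ^ u', ?_⟩
    calc (a ^ s' * b ^ t' * c ^ u') ^ q = a ^ (q * s') * b ^ (q * t') * c ^ (q * u') := by
          rw [mul_pow, mul_pow, ← pow_mul, ← pow_mul, ← pow_mul, mul_comm s', mul_comm t',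
            mul_comm u']
      _ = lam * b := by rw [← hs', ← ht', ← hu', hlam]; ring
  have hZ : ∃ Z : ℕ, Z ^ r = lam * c := by
    obtain ⟨u', hu'⟩ := hu2
    obtain ⟨s', hs'⟩ : r ∣ s := (dvd_mul_left r q).trans hs1
    obtain ⟨t', ht'⟩ : r ∣ t := (dvd_mul_left r p).trans ht1
    refine ⟨a ^ s' * b ^ t' * c ^ u', ?_⟩
    calc (a ^ s' * b ^ t' * c ^ u') ^ r = a ^ (r * s') * b ^ (r * t') * c ^ (r * u') := by
          rw [mul_pow, mul_pow, ← pow_mul, ← pow_mul, ← pow_mul, mul_comm s', mul_comm t',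
            mul_comm u']
      _ = lam * c := by rw [← hs', ← ht', ← hu', hlam]; ring
  obtain ⟨X0, hX0⟩ := hX
  obtain ⟨Y0, hY0⟩ := hY
  obtain ⟨Z0, hZ0⟩ := hZ
  obtain ⟨μ, ν, hμ0, hν0, hμν, hμle⟩ := split_pow (B := p * q * r) (by positivity) lam hlam0
  obtain ⟨X, -, hX⟩ := root_step (k := q * r) hp hν0 hX0
    (by rw [hμν]; congr 2; ring)
  obtain ⟨Y, -, hY⟩ := root_step (k := p * r) hq hν0 hY0
    (by rw [hμν]; congr 2; ring)
  obtain ⟨Z, -, hZ⟩ := root_step (k := p * q) hr hν0 hZ0 hμν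
  have hXpos : 0 < X := by
    rcases Nat.eq_zero_or_pos X with h0 | h0
    · rw [h0, zero_pow hp.ne'] at hX
      have : 0 < μ * a := by positivity
      omega
    · exact h0
  have hYpos : 0 < Y := by
    rcases Nat.eq_zero_or_pos Y with h0 | h0
    · rw [h0, zero_pow hq.ne'] at hY
      have : 0 < μ * b := by positivity
      omega
    · exact h0
  have hZpos : 0 < Z := by
    rcases Nat.eq_zero_or_pos Z with h0 | h0
    · rw [h0, zero_pow hr.ne'] at hZ
      have : 0 < μ * c := by positivity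
      omega
    · exact h0
  have hmain := h X Y Z hXpos hYpos hZpos (by rw [hX, hY, hZ, hc]; ring)
  have hg : Nat.gcd (X ^ p) (Y ^ q) = μ := by
    rw [hX, hY, Nat.gcd_mul_left, Nat.Coprime.gcd_eq_one hab, mul_one]
  rw [hg, hZ] at hmain
  have hradlam : rad lam ≤ rad (a * b * c) := by
    apply rad_le_of_primes habc0
    intro ℓ hℓ hd
    rcases (Nat.Prime.dvd_mul hℓ).1 hd with h1 | h1
    · rcases (Nat.Prime.dvd_mul hℓ).1 h1 with h2 | h2
      · exact Dvd.dvd.mul_right (Dvd.dvd.mul_right (hℓ.dvd_of_dvd_pow h2) _) _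
      · exact Dvd.dvd.mul_right (Dvd.dvd.mul_left (hℓ.dvd_of_dvd_pow h2) _) _
    · exact Dvd.dvd.mul_left (hℓ.dvd_of_dvd_pow h1) _
  exact bound_conv hμ0 (rad_pos _) (hμle.trans (Nat.pow_le_pow_left hradlam _)) hmain

/-! ### Weak abc gives the sharp inequality for all large exponents -/

lemma fermat_of_weakAbc (h : WeakAbc) : ∀ δ : ℝ, 0 < δ → ∃ N : ℕ, ∀ p q r : ℕ,
    N ≤ p → N ≤ q → N ≤ r → ∃ K : ℝ, ∀ X Y Z : ℕ, 0 < X → 0 < Y → 0 < Z →
      X ^ p + Y ^ q = Z ^ r →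
      ((Z ^ r : ℕ) : ℝ) ≤ K * ((Nat.gcd (X ^ p) (Y ^ q) : ℕ) : ℝ) ^ (1 + δ) := by
  obtain ⟨κ, K, hκ, hK, habc⟩ := weakAbc_log h
  intro δ hδ
  obtain ⟨N, hN⟩ := exists_nat_ge (3 * κ * (1 + δ) / δ + 1)
  refine ⟨N, ?_⟩
  intro p q r hp hq hr
  have hq1 : 0 ≤ 3 * κ * (1 + δ) / δ := by positivity
  have hN1 : (1 : ℝ) ≤ N := by linarith
  have hN0 : (0 : ℝ) < N := by linarith
  refine ⟨Real.exp ((1 + δ) * K), ?_⟩
  intro X Y Z hX hY hZ hXYZ
  set g := Nat.gcd (X ^ p) (Y ^ q) with hg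
  have hXp : 0 < X ^ p := pow_pos hX _
  have hYq : 0 < Y ^ q := pow_pos hY _
  have hg0 : 0 < g := Nat.gcd_pos_of_pos_left _ hXp
  obtain ⟨a, b, hab, hXa, hYb⟩ := Nat.exists_coprime (X ^ p) (Y ^ q)
  rw [← hg] at hXa hYb
  have ha0 : 0 < a := by
    rcases Nat.eq_zero_or_pos a with h0 | h0
    · rw [h0, zero_mul] at hXa; omega
    · exact h0
  have hb0 : 0 < b := by
    rcases Nat.eq_zero_or_pos b with h0 | h0
    · rw [h0, zero_mul] at hYb; omega
    · exact h0
  set c := a + b with hc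
  have hc0 : 0 < c := by omega
  have hZc : Z ^ r = c * g := by rw [← hXYZ, hXa, hYb, hc]; ring
  have hgr : (0 : ℝ) < g := by exact_mod_cast hg0
  have hcr : (0 : ℝ) < c := by exact_mod_cast hc0
  have hg1 : (1 : ℝ) ≤ g := by exact_mod_cast hg0
  have hc1 : (1 : ℝ) ≤ c := by exact_mod_cast hc0
  have hX1 : (1 : ℝ) ≤ X := by exact_mod_cast hX
  have hY1 : (1 : ℝ) ≤ Y := by exact_mod_cast hY
  have hZ1 : (1 : ℝ) ≤ Z := by exact_mod_cast hZ
  have hlX : 0 ≤ Real.log X := Real.log_nonneg hX1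
  have hlY : 0 ≤ Real.log Y := Real.log_nonneg hY1
  have hlZ : 0 ≤ Real.log Z := Real.log_nonneg hZ1
  set L := Real.log (g : ℝ) + Real.log (c : ℝ) with hL
  have hLcg : Real.log ((c * g : ℕ) : ℝ) = L := by
    push_cast
    rw [Real.log_mul hcr.ne' hgr.ne', hL]; ring
  have eX : (N : ℝ) * Real.log X ≤ L := by
    calc (N : ℝ) * Real.log X ≤ (p : ℝ) * Real.log X :=
          mul_le_mul_of_nonneg_right (by exact_mod_cast hp) hlX
      _ = Real.log ((X ^ p : ℕ) : ℝ) := by push_cast; rw [Real.log_pow]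
      _ ≤ Real.log ((c * g : ℕ) : ℝ) := by
          apply Real.log_le_log (by exact_mod_cast hXp)
          exact_mod_cast (by rw [hXa]; exact Nat.mul_le_mul_right _ (by omega))
      _ = L := hLcg
  have eY : (N : ℝ) * Real.log Y ≤ L := by
    calc (N : ℝ) * Real.log Y ≤ (q : ℝ) * Real.log Y :=
          mul_le_mul_of_nonneg_right (by exact_mod_cast hq) hlY
      _ = Real.log ((Y ^ q : ℕ) : ℝ) := by push_cast; rw [Real.log_pow]
      _ ≤ Real.log ((c * g : ℕ) : ℝ) := by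
          apply Real.log_le_log (by exact_mod_cast hYq)
          exact_mod_cast (by rw [hYb]; exact Nat.mul_le_mul_right _ (by omega))
      _ = L := hLcg
  have eZ : (N : ℝ) * Real.log Z ≤ L := by
    calc (N : ℝ) * Real.log Z ≤ (r : ℝ) * Real.log Z :=
          mul_le_mul_of_nonneg_right (by exact_mod_cast hr) hlZ
      _ = Real.log ((Z ^ r : ℕ) : ℝ) := by push_cast; rw [Real.log_pow]
      _ = L := by rw [hZc, hLcg]
  have hrad : rad (a * b * c) ∣ X * Y * Z := by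
    apply rad_dvd
    intro ℓ hℓ hd
    rcases (Nat.Prime.dvd_mul hℓ).1 hd with h1 | h1
    · rcases (Nat.Prime.dvd_mul hℓ).1 h1 with h2 | h2
      · have h3 : ℓ ∣ X ^ p := by rw [hXa]; exact Dvd.dvd.mul_right h2 _
        exact Dvd.dvd.mul_right (Dvd.dvd.mul_right (hℓ.dvd_of_dvd_pow h3) _) _
      · have h3 : ℓ ∣ Y ^ q := by rw [hYb]; exact Dvd.dvd.mul_right h2 _
        exact Dvd.dvd.mul_right (Dvd.dvd.mul_left (hℓ.dvd_of_dvd_pow h3) _) _
    · have h3 : ℓ ∣ Z ^ r := by rw [hZc]; exact Dvd.dvd.mul_right h1 _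
      exact Dvd.dvd.mul_left (hℓ.dvd_of_dvd_pow h3) _
  have hradlog : Real.log (rad (a * b * c) : ℝ) ≤ Real.log X + Real.log Y + Real.log Z := by
    have h1 : rad (a * b * c) ≤ X * Y * Z := Nat.le_of_dvd (by positivity) hrad
    have h2 : (rad (a * b * c) : ℝ) ≤ (X : ℝ) * Y * Z := by exact_mod_cast h1
    have h3 : (0 : ℝ) < (rad (a * b * c) : ℝ) := by exact_mod_cast rad_pos _
    have h4 := Real.log_le_log h3 h2
    rw [Real.log_mul (by positivity) (by linarith), Real.log_mul (by linarith) (by linarith)] at h4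
    exact h4
  have hmain : Real.log (c : ℝ) ≤ K + κ * Real.log (rad (a * b * c) : ℝ) :=
    habc a b ha0 hb0 hab
  have hL0 : 0 ≤ L := by
    have h1 := Real.log_nonneg hg1
    have h2 := Real.log_nonneg hc1
    linarith
  have h3 : κ * Real.log (rad (a * b * c) : ℝ) ≤ δ / (1 + δ) * L := by
    have h4 : (N : ℝ) * Real.log (rad (a * b * c) : ℝ) ≤ 3 * L := by
      calc (N : ℝ) * Real.log (rad (a * b * c) : ℝ)
          ≤ N * (Real.log X + Real.log Y + Real.log Z) :=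
            mul_le_mul_of_nonneg_left hradlog hN0.le
        _ ≤ 3 * L := by linarith
    have h5 : 3 * κ * (1 + δ) / δ ≤ N := by linarith
    have h6 : 3 * κ * (1 + δ) ≤ N * δ := by rwa [div_le_iff₀ hδ] at h5
    have h7 : Real.log (rad (a * b * c) : ℝ) ≤ 3 * L / N := by
      rw [le_div_iff₀ hN0]; linarith
    calc κ * Real.log (rad (a * b * c) : ℝ) ≤ κ * (3 * L / N) :=
          mul_le_mul_of_nonneg_left h7 (by linarith)
      _ ≤ δ / (1 + δ) * L := by
          rw [div_mul_eq_mul_div, mul_div_assoc', div_le_div_iff₀ hN0 (by linarith)]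
          nlinarith
  have h8 : Real.log (c : ℝ) ≤ (1 + δ) * K + δ * Real.log (g : ℝ) := by
    have h9 : Real.log (c : ℝ) ≤ K + δ / (1 + δ) * L := by linarith
    have h10 : (1 + δ) * Real.log (c : ℝ) ≤ (1 + δ) * K + δ * L := by
      calc (1 + δ) * Real.log (c : ℝ) ≤ (1 + δ) * (K + δ / (1 + δ) * L) :=
            mul_le_mul_of_nonneg_left h9 (by linarith)
        _ = (1 + δ) * K + δ * L := by field_simp
    rw [hL] at h10
    nlinarith
  have h11 : Real.log ((Z ^ r : ℕ) : ℝ) ≤ (1 + δ) * K + (1 + δ) * Real.log (g : ℝ) := by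
    rw [hZc, hLcg, hL]; linarith
  have h12 : (0 : ℝ) < ((Z ^ r : ℕ) : ℝ) := by
    have : 0 < Z ^ r := pow_pos hZ _
    exact_mod_cast this
  calc ((Z ^ r : ℕ) : ℝ) = Real.exp (Real.log ((Z ^ r : ℕ) : ℝ)) := (Real.exp_log h12).symm
    _ ≤ Real.exp ((1 + δ) * K + (1 + δ) * Real.log (g : ℝ)) := Real.exp_le_exp.2 h11
    _ = Real.exp ((1 + δ) * K) * (g : ℝ) ^ (1 + δ) := by
        rw [Real.exp_add, Real.rpow_def_of_pos hgr, mul_comm (1 + δ) (Real.log (g : ℝ))]

/-! ### The curves `y^m = x^n + k` give weak abc -/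

lemma weakAbc_of_mordell {m n : ℕ} (hm : 0 < m) (hn : 0 < n) (hmn : Nat.Coprime m n) {κ K : ℝ}
    (h : ∀ (x y : ℚ) (k : ℤ), k ≠ 0 → y ^ m = x ^ n + (k : ℚ) →
      height x ≤ K * |(k : ℝ)| ^ κ) : WeakAbc := by
  refine ⟨((2 * (m * n) : ℕ) : ℝ) * (1 + n * |κ|), 2 * |K| ^ n, ?_⟩
  intro a b ha hb hab
  change ((a + b : ℕ) : ℝ) ≤
    2 * |K| ^ n * (rad (a * b * (a + b)) : ℝ) ^ (((2 * (m * n) : ℕ) : ℝ) * (1 + n * |κ|))
  set c := a + b with hc
  have hc0 : 0 < c := by omega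
  have habc0 : a * b * c ≠ 0 := by positivity
  set R := rad (a * b * c) with hR
  have hR0 : 0 < R := rad_pos _
  obtain ⟨s, hs1, hs2⟩ := exists_exp hm hmn
  obtain ⟨t, ht1, ht2⟩ := exists_exp hn hmn.symm
  set lam := c ^ s * a ^ t with hlam
  have hlam0 : 0 < lam := by positivity
  have hX : ∃ X : ℕ, X ^ n = lam * a := by
    obtain ⟨s', hs'⟩ := hs1
    obtain ⟨t', ht'⟩ := ht2
    refine ⟨c ^ s' * a ^ t', ?_⟩
    calc (c ^ s' * a ^ t') ^ n = c ^ (n * s') * a ^ (n * t') := by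
          rw [mul_pow, ← pow_mul, ← pow_mul, mul_comm s', mul_comm t']
      _ = lam * a := by rw [← hs', ← ht', hlam]; ring
  have hY : ∃ Y : ℕ, Y ^ m = lam * c := by
    obtain ⟨s', hs'⟩ := hs2
    obtain ⟨t', ht'⟩ := ht1
    refine ⟨c ^ s' * a ^ t', ?_⟩
    calc (c ^ s' * a ^ t') ^ m = c ^ (m * s') * a ^ (m * t') := by
          rw [mul_pow, ← pow_mul, ← pow_mul, mul_comm s', mul_comm t']
      _ = lam * c := by rw [← hs', ← ht', hlam]; ring
  obtain ⟨X0, hX0⟩ := hX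
  obtain ⟨Y0, hY0⟩ := hY
  obtain ⟨μ, ν, hμ0, hν0, hμν, hμle⟩ := split_pow (B := m * n) (by positivity) lam hlam0
  obtain ⟨β, γ, hβ0, hγ0, hβγ, hβle⟩ := split_pow (B := m * n) (by positivity) b hb
  obtain ⟨X, -, hX⟩ := root_step (k := m) hn hν0 hX0 hμν
  obtain ⟨Y, -, hY⟩ := root_step (k := n) hm hν0 hY0 (by rw [hμν, mul_comm n m])
  have hXpos : 0 < X := by
    rcases Nat.eq_zero_or_pos X with h0 | h0
    · rw [h0, zero_pow hn.ne'] at hX
      have : 0 < μ * a := by positivity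
      omega
    · exact h0
  set k := μ * β with hk
  have hk0 : 0 < k := by positivity
  have hγq : (γ : ℚ) ≠ 0 := by exact_mod_cast hγ0.ne'
  set x : ℚ := (X : ℚ) / (γ : ℚ) ^ m with hx
  set y : ℚ := (Y : ℚ) / (γ : ℚ) ^ n with hy
  have hXq : (X : ℚ) ^ n = μ * a := by exact_mod_cast hX
  have hYq : (Y : ℚ) ^ m = μ * c := by exact_mod_cast hY
  have hbq : (b : ℚ) = β * (γ : ℚ) ^ (m * n) := by exact_mod_cast hβγ
  have heq : y ^ m = x ^ n + (((k : ℕ) : ℤ) : ℚ) := by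
    have hγp : (γ : ℚ) ^ (m * n) ≠ 0 := pow_ne_zero _ hγq
    have e1 : y ^ m = (μ * c) / (γ : ℚ) ^ (m * n) := by
      rw [hy, div_pow, ← pow_mul, mul_comm n m, hYq]
    have e2 : x ^ n = (μ * a) / (γ : ℚ) ^ (m * n) := by
      rw [hx, div_pow, ← pow_mul, hXq]
    rw [e1, e2, div_eq_iff hγp, add_mul, div_mul_cancel₀ _ hγp, hk, hc]
    push_cast
    rw [hbq]; ring
  have hmain := h x y (k : ℤ) (by exact_mod_cast hk0.ne') heq
  -- the height of `x`
  have hnat : x.num.natAbs * γ ^ m = X * x.den := by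
    have e : (x.num : ℚ) / (x.den : ℚ) = (X : ℚ) / (γ : ℚ) ^ m := by
      rw [Rat.num_div_den, hx]
    have hd : (x.den : ℚ) ≠ 0 := by exact_mod_cast x.den_ne_zero
    rw [div_eq_div_iff hd (pow_ne_zero _ hγq)] at e
    have e' : x.num * (γ : ℤ) ^ m = (X : ℤ) * (x.den : ℤ) := by exact_mod_cast e
    have e'' := congrArg Int.natAbs e'
    rwa [Int.natAbs_mul, Int.natAbs_mul, Int.natAbs_pow, Int.natAbs_natCast,
      Int.natAbs_natCast, Int.natAbs_natCast] at e''
  set u := x.num.natAbs with hu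
  set d := x.den with hd
  have hd0 : 0 < d := x.den_pos
  have hu0 : 0 < u := by
    rcases Nat.eq_zero_or_pos u with h0 | h0
    · rw [h0, zero_mul] at hnat
      have : 0 < X * d := by positivity
      omega
    · exact h0
  have hid : u ^ n * b = k * a * d ^ n := by
    calc u ^ n * b = (u * γ ^ m) ^ n * β := by
          rw [mul_pow, ← pow_mul]
          conv_lhs => rw [hβγ]
          ring
      _ = X ^ n * d ^ n * β := by rw [hnat, mul_pow]
      _ = k * a * d ^ n := by rw [hX, hk]; ring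
  have ha_le : a ≤ u ^ n := by
    apply Nat.le_of_dvd (pow_pos hu0 _)
    have h1 : a ∣ u ^ n * b := by rw [hid]; exact ⟨k * d ^ n, by ring⟩
    exact Nat.Coprime.dvd_of_dvd_mul_right hab h1
  have hb_le : b ≤ k * d ^ n := by
    apply Nat.le_of_dvd (by positivity)
    have h1 : b ∣ a * (k * d ^ n) := ⟨u ^ n, by rw [mul_comm b, hid]; ring⟩
    exact Nat.Coprime.dvd_of_dvd_mul_left hab.symm h1
  have hHu : (u : ℝ) ≤ height x := by
    unfold height
    refine le_trans (le_of_eq ?_) (le_max_left _ _)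
    rw [hu, Nat.cast_natAbs]; push_cast; rfl
  have hHd : (d : ℝ) ≤ height x := le_max_right _ _
  have hH0 : 0 ≤ height x := le_trans (by positivity) hHd
  have hk1 : (1 : ℝ) ≤ k := by exact_mod_cast hk0
  have hkr : (0 : ℝ) < k := by linarith
  have hH : height x ≤ |K| * (k : ℝ) ^ |κ| := by
    have habsk : |(((k : ℕ) : ℤ) : ℝ)| = (k : ℝ) := by
      rw [abs_of_nonneg (by positivity)]; norm_cast
    rw [habsk] at hmain
    calc height x ≤ K * (k : ℝ) ^ κ := hmain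
      _ ≤ |K| * (k : ℝ) ^ κ :=
          mul_le_mul_of_nonneg_right (le_abs_self K) (Real.rpow_nonneg hkr.le _)
      _ ≤ |K| * (k : ℝ) ^ |κ| := by
          apply mul_le_mul_of_nonneg_left _ (abs_nonneg K)
          exact Real.rpow_le_rpow_of_exponent_le hk1 (le_abs_self κ)
  have hcle : (c : ℝ) ≤ 2 * |K| ^ n * (k : ℝ) ^ (1 + n * |κ|) := by
    have h1 : (c : ℝ) ≤ (u : ℝ) ^ n + k * (d : ℝ) ^ n := by
      have : c ≤ u ^ n + k * d ^ n := by omega
      exact_mod_cast this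
    have h2 : (u : ℝ) ^ n ≤ (height x) ^ n := pow_le_pow_left₀ (by positivity) hHu n
    have h3 : (d : ℝ) ^ n ≤ (height x) ^ n := pow_le_pow_left₀ (by positivity) hHd n
    have h4 : 0 ≤ (height x) ^ n := pow_nonneg hH0 n
    have h5 : (height x) ^ n ≤ |K| ^ n * (k : ℝ) ^ (n * |κ|) := by
      calc (height x) ^ n ≤ (|K| * (k : ℝ) ^ |κ|) ^ n := pow_le_pow_left₀ hH0 hH n
        _ = |K| ^ n * (k : ℝ) ^ (n * |κ|) := by
            rw [mul_pow, ← Real.rpow_natCast ((k : ℝ) ^ |κ|), ← Real.rpow_mul hkr.le,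
              mul_comm |κ|]
    rw [Real.rpow_add hkr, Real.rpow_one]
    calc (c : ℝ) ≤ (u : ℝ) ^ n + k * (d : ℝ) ^ n := h1
      _ ≤ k * (height x) ^ n + k * (height x) ^ n := by
          have h6 : (u : ℝ) ^ n ≤ k * (height x) ^ n := by nlinarith
          have h7 : (k : ℝ) * (d : ℝ) ^ n ≤ k * (height x) ^ n :=
            mul_le_mul_of_nonneg_left h3 hkr.le
          linarith
      _ = 2 * k * (height x) ^ n := by ring
      _ ≤ 2 * k * (|K| ^ n * (k : ℝ) ^ (n * |κ|)) :=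
          mul_le_mul_of_nonneg_left h5 (by positivity)
      _ = 2 * |K| ^ n * (k * (k : ℝ) ^ (n * |κ|)) := by ring
  -- the size of `k`
  have hradlam : rad lam ≤ R := by
    apply rad_le_of_primes habc0
    intro ℓ hℓ hd
    rcases (Nat.Prime.dvd_mul hℓ).1 hd with h1 | h1
    · exact Dvd.dvd.mul_left (hℓ.dvd_of_dvd_pow h1) _
    · exact Dvd.dvd.mul_right (Dvd.dvd.mul_right (hℓ.dvd_of_dvd_pow h1) _) _
  have hradb : rad b ≤ R := rad_mono_dvd habc0 ⟨a * c, by ring⟩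
  have hkR : k ≤ R ^ (2 * (m * n)) := by
    calc k = μ * β := hk
      _ ≤ R ^ (m * n) * R ^ (m * n) :=
          Nat.mul_le_mul (hμle.trans (Nat.pow_le_pow_left hradlam _))
            (hβle.trans (Nat.pow_le_pow_left hradb _))
      _ = R ^ (2 * (m * n)) := by rw [← pow_add]; congr 1; ring
  have hRr : (0 : ℝ) < R := by exact_mod_cast hR0
  calc (c : ℝ) ≤ 2 * |K| ^ n * (k : ℝ) ^ (1 + n * |κ|) := hcle
    _ ≤ 2 * |K| ^ n * (R : ℝ) ^ (((2 * (m * n) : ℕ) : ℝ) * (1 + n * |κ|)) := by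
        apply mul_le_mul_of_nonneg_left _ (by positivity)
        rw [Real.rpow_mul hRr.le, Real.rpow_natCast]
        apply Real.rpow_le_rpow hkr.le _ (by positivity)
        exact_mod_cast hkR

/-! ### Weak abc bounds the rational points on `y^m = x^n + k` -/

/-- weak abc for three positive integers, one of which is the sum of the other two. -/
lemma abc_sym {κ K : ℝ}
    (habc : ∀ a b : ℕ, 0 < a → 0 < b → Nat.Coprime a b →
      Real.log ((a + b : ℕ) : ℝ) ≤ K + κ * Real.log (rad (a * b * (a + b)) : ℝ))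
    {A B C : ℕ} (hA : 0 < A) (hB : 0 < B) (hC : 0 < C) (hAB : Nat.Coprime A B)
    (h : A + B = C ∨ B + C = A ∨ A + C = B) :
    Real.log (A : ℝ) ≤ K + κ * Real.log (rad (A * B * C) : ℝ) ∧
    Real.log (B : ℝ) ≤ K + κ * Real.log (rad (A * B * C) : ℝ) ∧
    Real.log (C : ℝ) ≤ K + κ * Real.log (rad (A * B * C) : ℝ) := by
  have hA0 : (0 : ℝ) < A := by exact_mod_cast hA
  have hB0 : (0 : ℝ) < B := by exact_mod_cast hB
  have hC0 : (0 : ℝ) < C := by exact_mod_cast hC
  have key : ∀ M : ℕ, A ≤ M → B ≤ M → C ≤ M →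
      Real.log (M : ℝ) ≤ K + κ * Real.log (rad (A * B * C) : ℝ) →
      Real.log (A : ℝ) ≤ K + κ * Real.log (rad (A * B * C) : ℝ) ∧
      Real.log (B : ℝ) ≤ K + κ * Real.log (rad (A * B * C) : ℝ) ∧
      Real.log (C : ℝ) ≤ K + κ * Real.log (rad (A * B * C) : ℝ) := by
    intro M h1 h2 h3 hM
    exact ⟨(Real.log_le_log hA0 (by exact_mod_cast h1)).trans hM,
      (Real.log_le_log hB0 (by exact_mod_cast h2)).trans hM,
      (Real.log_le_log hC0 (by exact_mod_cast h3)).trans hM⟩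
  rcases h with h | h | h
  · apply key C (by omega) (by omega) le_rfl
    have := habc A B hA hB hAB
    rwa [h] at this
  · apply key A le_rfl (by omega) (by omega)
    have hBC : Nat.Coprime B C := by
      have h1 : Nat.Coprime A B := hAB
      rw [← h] at h1
      have h2 : Nat.Coprime B (B + C) := h1.symm
      simpa using h2
    have := habc B C hB hC hBC
    rw [h] at this
    have e : B * C * A = A * B * C := by ring
    rwa [e] at this
  · apply key B (by omega) le_rfl (by omega)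
    have hAC : Nat.Coprime A C := by
      have h1 : Nat.Coprime A B := hAB
      rw [← h] at h1
      simpa using h1
    have := habc A C hA hC hAC
    rw [h] at this
    have e : A * C * B = A * B * C := by ring
    rwa [e] at this

/-- Numerators and denominators in `y^m = x^n + k`. -/
lemma clear_den {m n : ℕ} {x y : ℚ} {k : ℤ} (h : y ^ m = x ^ n + (k : ℚ)) :
    y.num ^ m = x.num ^ n + k * (x.den : ℤ) ^ n := by
  have h1 : y.den ^ m = x.den ^ n := by
    have := congrArg Rat.den h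
    rwa [Rat.add_intCast_den, Rat.den_pow, Rat.den_pow] at this
  have hd : (x.den : ℚ) ^ n ≠ 0 := pow_ne_zero _ (by exact_mod_cast x.den_ne_zero)
  have h2 : (y.num : ℚ) ^ m / (x.den : ℚ) ^ n = (x.num : ℚ) ^ n / (x.den : ℚ) ^ n + k := by
    have e1 : (x.den : ℚ) ^ n = (y.den : ℚ) ^ m := by exact_mod_cast h1.symm
    conv_lhs => rw [e1]
    rw [← div_pow, ← div_pow, Rat.num_div_den, Rat.num_div_den]
    exact h
  rw [div_eq_iff hd, add_mul, div_mul_cancel₀ _ hd] at h2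
  exact_mod_cast h2

/-- The sign cases. -/
lemma natAbs_cases {P Q S : ℤ} (h : S = P + Q) :
    P.natAbs + Q.natAbs = S.natAbs ∨ Q.natAbs + S.natAbs = P.natAbs ∨
      P.natAbs + S.natAbs = Q.natAbs := by
  omega

lemma mordell_of_weakAbc (h : WeakAbc) : ∀ δ : ℝ, 0 < δ → ∃ N : ℕ, ∀ m n : ℕ,
    N ≤ m → N ≤ n → ∃ K : ℝ, ∀ (x y : ℚ) (k : ℤ), k ≠ 0 → y ^ m = x ^ n + (k : ℚ) →
      height x ≤ K * |(k : ℝ)| ^ δ := by
  obtain ⟨κ, K, hκ, hK, habc⟩ := weakAbc_log h
  intro δ hδ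
  obtain ⟨N, hN⟩ := exists_nat_ge (6 * κ + (2 * κ + 2) / δ + 1)
  refine ⟨N, ?_⟩
  intro m n hm hn
  have hq1 : 0 ≤ (2 * κ + 2) / δ := by positivity
  have hN1 : (1 : ℝ) ≤ N := by linarith
  have hN0 : (0 : ℝ) < N := by linarith
  have hN6 : 6 * κ ≤ N := by linarith
  have hNδ : 2 * κ + 2 ≤ N * δ := by
    have : (2 * κ + 2) / δ ≤ N := by linarith
    rwa [div_le_iff₀ hδ] at this
  have hn0 : n ≠ 0 := by
    rintro rfl
    have : (N : ℝ) ≤ 0 := by exact_mod_cast hn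
    linarith
  have hm0 : m ≠ 0 := by
    rintro rfl
    have : (N : ℝ) ≤ 0 := by exact_mod_cast hm
    linarith
  refine ⟨Real.exp (2 * K), ?_⟩
  intro x y k hk heq
  set kk := k.natAbs with hkk
  have hkk0 : 0 < kk := Int.natAbs_pos.2 hk
  have hkkr : (1 : ℝ) ≤ kk := by exact_mod_cast hkk0
  have hkk1 : (0 : ℝ) < kk := by linarith
  have hlk : 0 ≤ Real.log kk := Real.log_nonneg hkkr
  have habsk : |(k : ℝ)| = (kk : ℝ) := by rw [hkk, Nat.cast_natAbs]; push_cast; rfl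
  set u := x.num.natAbs with hu
  set d := x.den with hd
  have hd0 : 0 < d := x.den_pos
  have hdr : (0 : ℝ) < d := by exact_mod_cast hd0
  have hheight : height x = max (u : ℝ) (d : ℝ) := by
    unfold height
    rw [hu, Nat.cast_natAbs]; push_cast; rfl
  -- reduction to a logarithmic estimate
  suffices hlog : (0 < u → Real.log (u : ℝ) ≤ 2 * K + δ * Real.log kk) ∧
      Real.log (d : ℝ) ≤ 2 * K + δ * Real.log kk by
    rw [habsk, hheight]
    have hrw : Real.exp (2 * K) * (kk : ℝ) ^ δ = Real.exp (2 * K + δ * Real.log kk) := by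
      rw [Real.exp_add, Real.rpow_def_of_pos hkk1, mul_comm δ]
    rw [hrw]
    apply max_le
    · rcases Nat.eq_zero_or_pos u with h0 | h0
      · rw [h0]; simpa using (Real.exp_pos _).le
      · have hur : (0 : ℝ) < u := by exact_mod_cast h0
        rw [← Real.exp_log hur]
        exact Real.exp_le_exp.2 (hlog.1 h0)
    · rw [← Real.exp_log hdr]
      exact Real.exp_le_exp.2 hlog.2
  have hδlk : 0 ≤ δ * Real.log kk := mul_nonneg hδ.le hlk
  rcases Nat.eq_zero_or_pos u with hu0 | hu0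
  · -- `x = 0`
    have hx0 : x = 0 := by
      have : x.num = 0 := Int.natAbs_eq_zero.1 hu0
      exact Rat.num_eq_zero.1 this
    have hd1 : d = 1 := by rw [hd, hx0]; rfl
    refine ⟨fun h0 => absurd h0 (by omega), ?_⟩
    rw [hd1]; simp only [Nat.cast_one, Real.log_one]; linarith
  have hur : (0 : ℝ) < u := by exact_mod_cast hu0
  have hur1 : (1 : ℝ) ≤ u := by exact_mod_cast hu0
  have hdr1 : (1 : ℝ) ≤ d := by exact_mod_cast hd0
  have hlu : 0 ≤ Real.log u := Real.log_nonneg hur1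
  have hld : 0 ≤ Real.log d := Real.log_nonneg hdr1
  have hcop : Nat.Coprime u d := x.reduced
  have hint := clear_den heq
  set v := y.num.natAbs with hv
  have hP : (x.num ^ n).natAbs = u ^ n := by rw [Int.natAbs_pow]
  have hQ : (k * (x.den : ℤ) ^ n).natAbs = kk * d ^ n := by
    rw [Int.natAbs_mul, Int.natAbs_pow, Int.natAbs_natCast]
  have hS : (y.num ^ m).natAbs = v ^ m := by rw [Int.natAbs_pow]
  have hcases := natAbs_cases hint
  rw [hP, hQ, hS] at hcases
  have hup : 0 < u ^ n := pow_pos hu0 _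
  have hdp : 0 < d ^ n := pow_pos hd0 _
  have hqp : 0 < kk * d ^ n := by positivity
  set g := Nat.gcd (u ^ n) (kk * d ^ n) with hg
  have hg0 : 0 < g := Nat.gcd_pos_of_pos_left _ hup
  obtain ⟨A, B, hAB, hA, hB⟩ := Nat.exists_coprime (u ^ n) (kk * d ^ n)
  rw [← hg] at hA hB
  have hgk : g ∣ kk := by
    have h1 : g ∣ u ^ n := Nat.gcd_dvd_left _ _
    have h2 : g ∣ kk * d ^ n := Nat.gcd_dvd_right _ _
    have h3 : Nat.Coprime g (d ^ n) :=
      Nat.Coprime.coprime_dvd_left h1 (Nat.Coprime.pow _ _ hcop)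
    exact h3.dvd_of_dvd_mul_right h2
  have hgle : g ≤ kk := Nat.le_of_dvd hkk0 hgk
  have hA0 : 0 < A := by
    rcases Nat.eq_zero_or_pos A with h0 | h0
    · rw [h0, zero_mul] at hA; omega
    · exact h0
  have hB0 : 0 < B := by
    rcases Nat.eq_zero_or_pos B with h0 | h0
    · rw [h0, zero_mul] at hB; omega
    · exact h0
  have hgr : (0 : ℝ) < g := by exact_mod_cast hg0
  have hlg : Real.log g ≤ Real.log kk := Real.log_le_log hgr (by exact_mod_cast hgle)
  -- an upper bound for `u` and `d` from one for `A`, `B`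
  have hAr : (0 : ℝ) < A := by exact_mod_cast hA0
  have hBr : (0 : ℝ) < B := by exact_mod_cast hB0
  have hnu : (n : ℝ) * Real.log u = Real.log A + Real.log g := by
    rw [← Real.log_pow, ← Real.log_mul hAr.ne' hgr.ne']
    congr 1
    exact_mod_cast hA
  have hnd : (n : ℝ) * Real.log d ≤ Real.log B + Real.log g := by
    rw [← Real.log_pow, ← Real.log_mul hBr.ne' hgr.ne']
    apply Real.log_le_log (by positivity)
    have : d ^ n ≤ B * g := by
      rw [← hB]; exact Nat.le_mul_of_pos_left _ hkk0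
    exact_mod_cast this
  have hNn : (N : ℝ) ≤ n := by exact_mod_cast hn
  have hNm : (N : ℝ) ≤ m := by exact_mod_cast hm
  -- final step
  have final : ∀ T : ℝ, 0 ≤ T → T ≤ 2 * K + (2 * κ + 1) * Real.log kk →
      Real.log A ≤ T → Real.log B ≤ T →
      Real.log (u : ℝ) ≤ 2 * K + δ * Real.log kk ∧
      Real.log (d : ℝ) ≤ 2 * K + δ * Real.log kk := by
    intro T hT0 hT hTA hTB
    have h1 : (N : ℝ) * Real.log u ≤ 2 * K + (2 * κ + 2) * Real.log kk := by
      have := mul_le_mul_of_nonneg_right hNn hlu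
      linarith
    have h2 : (N : ℝ) * Real.log d ≤ 2 * K + (2 * κ + 2) * Real.log kk := by
      have := mul_le_mul_of_nonneg_right hNn hld
      linarith
    have h3 : 2 * K + (2 * κ + 2) * Real.log kk ≤ N * (2 * K + δ * Real.log kk) := by
      have h4 : (2 * κ + 2) * Real.log kk ≤ N * δ * Real.log kk :=
        mul_le_mul_of_nonneg_right hNδ hlk
      have h5 : 2 * K ≤ N * (2 * K) := by nlinarith
      linarith
    exact ⟨le_of_mul_le_mul_left (h1.trans h3) hN0, le_of_mul_le_mul_left (h2.trans h3) hN0⟩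
  rcases Nat.eq_zero_or_pos v with hv0 | hv0
  · -- `y = 0`
    rw [hv0, zero_pow hm0] at hcases
    have hpq : u ^ n = kk * d ^ n := by omega
    have hAB' : A = B := by
      rw [hA, hB] at hpq
      exact Nat.eq_of_mul_eq_mul_right hg0 hpq
    have hA1 : A = 1 := by
      rw [← hAB'] at hAB
      exact (Nat.coprime_self A).1 hAB
    have hB1 : B = 1 := by rw [← hAB']; exact hA1
    have hlA : Real.log (A : ℝ) = 0 := by rw [hA1]; simp
    have hlB : Real.log (B : ℝ) = 0 := by rw [hB1]; simp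
    obtain ⟨r1, r2⟩ := final 0 le_rfl (by positivity) hlA.le hlB.le
    exact ⟨fun _ => r1, r2⟩
  · have hvr : (1 : ℝ) ≤ v := by exact_mod_cast hv0
    have hlv : 0 ≤ Real.log v := Real.log_nonneg hvr
    have hvp : 0 < v ^ m := pow_pos hv0 _
    have hgS : g ∣ v ^ m := by
      have h1 : g ∣ u ^ n := Nat.gcd_dvd_left _ _
      have h2 : g ∣ kk * d ^ n := Nat.gcd_dvd_right _ _
      rcases hcases with h | h | h
      · rw [← h]; exact dvd_add h1 h2
      · rw [← h] at h1; exact (Nat.dvd_add_right h2).1 h1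
      · rw [← h] at h2; exact (Nat.dvd_add_right h1).1 h2
    obtain ⟨C, hC⟩ := hgS
    have hC0 : 0 < C := by
      rcases Nat.eq_zero_or_pos C with h0 | h0
      · rw [h0, mul_zero] at hC; omega
      · exact h0
    have hCr : (0 : ℝ) < C := by exact_mod_cast hC0
    have hABC : A + B = C ∨ B + C = A ∨ A + C = B := by
      rw [hA, hB, hC] at hcases
      rcases hcases with h | h | h
      · left
        apply Nat.eq_of_mul_eq_mul_left hg0
        rw [← h]; ring
      · right; left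
        apply Nat.eq_of_mul_eq_mul_left hg0
        rw [mul_comm g A, ← h]; ring
      · right; right
        apply Nat.eq_of_mul_eq_mul_left hg0
        rw [mul_comm g B, ← h]; ring
    obtain ⟨t1, t2, t3⟩ := abc_sym habc hA0 hB0 hC0 hAB hABC
    set ρ := Real.log (rad (A * B * C) : ℝ) with hρ
    have hρ0 : 0 ≤ ρ := Real.log_nonneg (by exact_mod_cast rad_pos _)
    set T := K + κ * ρ with hT
    have hT0 : 0 ≤ T := by positivity
    have hmv : (m : ℝ) * Real.log v = Real.log C + Real.log g := by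
      rw [← Real.log_pow, ← Real.log_mul hCr.ne' hgr.ne']
      congr 1
      have : v ^ m = C * g := by rw [hC]; ring
      exact_mod_cast this
    have e1 : (N : ℝ) * Real.log u ≤ Real.log kk + T := by
      have := mul_le_mul_of_nonneg_right hNn hlu
      linarith
    have e2 : (N : ℝ) * Real.log d ≤ Real.log kk + T := by
      have := mul_le_mul_of_nonneg_right hNn hld
      linarith
    have e3 : (N : ℝ) * Real.log v ≤ Real.log kk + T := by
      have := mul_le_mul_of_nonneg_right hNm hlv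
      linarith
    have hraddvd : rad (A * B * C) ∣ kk * (u * d * v) := by
      apply rad_dvd
      intro ℓ hℓ hdv
      rcases (Nat.Prime.dvd_mul hℓ).1 hdv with h1 | h1
      · rcases (Nat.Prime.dvd_mul hℓ).1 h1 with h2 | h2
        · have h3 : ℓ ∣ u ^ n := by rw [hA]; exact Dvd.dvd.mul_right h2 _
          exact Dvd.dvd.mul_left
            (Dvd.dvd.mul_right (Dvd.dvd.mul_right (hℓ.dvd_of_dvd_pow h3) _) _) _
        · have h3 : ℓ ∣ kk * d ^ n := by rw [hB]; exact Dvd.dvd.mul_right h2 _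
          rcases (Nat.Prime.dvd_mul hℓ).1 h3 with h4 | h4
          · exact Dvd.dvd.mul_right h4 _
          · exact Dvd.dvd.mul_left
              (Dvd.dvd.mul_right (Dvd.dvd.mul_left (hℓ.dvd_of_dvd_pow h4) _) _) _
      · have h3 : ℓ ∣ v ^ m := by rw [hC]; exact Dvd.dvd.mul_left h1 _
        exact Dvd.dvd.mul_left (Dvd.dvd.mul_left (hℓ.dvd_of_dvd_pow h3) _) _
    have hρle : ρ ≤ Real.log kk + (Real.log u + Real.log d + Real.log v) := by
      have h1 : rad (A * B * C) ≤ kk * (u * d * v) := Nat.le_of_dvd (by positivity) hraddvd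
      have h2 : (rad (A * B * C) : ℝ) ≤ (kk : ℝ) * ((u : ℝ) * d * v) := by exact_mod_cast h1
      have h3 : (0 : ℝ) < (rad (A * B * C) : ℝ) := by exact_mod_cast rad_pos _
      have h4 := Real.log_le_log h3 h2
      rw [Real.log_mul hkk1.ne' (by positivity), Real.log_mul (by positivity) (by linarith),
        Real.log_mul hur.ne' hdr.ne'] at h4
      exact h4
    have hNρ : (N : ℝ) * ρ ≤ N * Real.log kk + 3 * (Real.log kk + T) := by
      have := mul_le_mul_of_nonneg_left hρle hN0.le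
      linarith
    -- `κ ρ ≤ κ log k + (log k + T)/2`
    have hκρ : κ * ρ ≤ κ * Real.log kk + (Real.log kk + T) / 2 := by
      have h1 : N * (κ * ρ) ≤ N * (κ * Real.log kk + (Real.log kk + T) / 2) := by
        have h2 : κ * (N * ρ) ≤ κ * (N * Real.log kk + 3 * (Real.log kk + T)) :=
          mul_le_mul_of_nonneg_left hNρ (by linarith)
        have h3 : 0 ≤ Real.log kk + T := by linarith
        have h4 : 6 * κ * (Real.log kk + T) ≤ N * (Real.log kk + T) :=
          mul_le_mul_of_nonneg_right hN6 h3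
        calc N * (κ * ρ) = κ * (N * ρ) := by ring
          _ ≤ κ * (N * Real.log kk + 3 * (Real.log kk + T)) := h2
          _ = N * (κ * Real.log kk) + 6 * κ * (Real.log kk + T) / 2 := by ring
          _ ≤ N * (κ * Real.log kk + (Real.log kk + T) / 2) := by linarith
      exact le_of_mul_le_mul_left h1 hN0
    have hTle : T ≤ 2 * K + (2 * κ + 1) * Real.log kk := by linarith
    obtain ⟨r1, r2⟩ := final T hT0 hTle t1 t2
    exact ⟨fun _ => r1, r2⟩

end Pool.Agent.H88.PHI
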