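import Pool.Agent.H88.PHI.OneEq

set_option autoImplicit false

namespace Pool.Agent.Results.MP_05f553_nt.OneEquation

open Pool.Agent.H88.PHI

/-- Q1 verbatim is equivalent to each of: a polynomial bound for one generalised Fermat equation
with pairwise coprime exponents; the bound with exponent `1 + δ` for all large exponents; a
polynomial bound in `k` for the rational points on `y^m = x^n + k` for one pair of coprime
exponents; the bound with exponent `δ` for all large exponents. -/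
theorem result : List.TFAE [
    (∃ B : ℕ, 0 < B ∧ ∃ α β ε : ℝ, 1 ≤ α ∧ 0 ≤ β ∧ 0 < ε ∧ ε < 1 / 2 ∧ Holds B α β ε),
    (∃ p q r : ℕ, 0 < p ∧ 0 < q ∧ 0 < r ∧ Nat.Coprime p q ∧ Nat.Coprime p r ∧ Nat.Coprime q r ∧
      ∃ κ K : ℝ, ∀ X Y Z : ℕ, 0 < X → 0 < Y → 0 < Z → X ^ p + Y ^ q = Z ^ r →
        ((Z ^ r : ℕ) : ℝ) ≤ K * ((Nat.gcd (X ^ p) (Y ^ q) : ℕ) : ℝ) ^ κ),
    (∀ δ : ℝ, 0 < δ → ∃ N : ℕ, ∀ p q r : ℕ, N ≤ p → N ≤ q → N ≤ r →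
      ∃ K : ℝ, ∀ X Y Z : ℕ, 0 < X → 0 < Y → 0 < Z → X ^ p + Y ^ q = Z ^ r →
        ((Z ^ r : ℕ) : ℝ) ≤ K * ((Nat.gcd (X ^ p) (Y ^ q) : ℕ) : ℝ) ^ (1 + δ)),
    (∃ m n : ℕ, 0 < m ∧ 0 < n ∧ Nat.Coprime m n ∧
      ∃ κ K : ℝ, ∀ (x y : ℚ) (k : ℤ), k ≠ 0 → y ^ m = x ^ n + (k : ℚ) →
        height x ≤ K * |(k : ℝ)| ^ κ),
    (∀ δ : ℝ, 0 < δ → ∃ N : ℕ, ∀ m n : ℕ, N ≤ m → N ≤ n →
      ∃ K : ℝ, ∀ (x y : ℚ) (k : ℤ), k ≠ 0 → y ^ m = x ^ n + (k : ℚ) →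
        height x ≤ K * |(k : ℝ)| ^ δ)] := by
  have hQ : (∃ B : ℕ, 0 < B ∧ ∃ α β ε : ℝ, 1 ≤ α ∧ 0 ≤ β ∧ 0 < ε ∧ ε < 1 / 2 ∧ Holds B α β ε)
      → WeakAbc := by
    rintro ⟨B, hB, α, β, ε, h1, h2, h3, h4, h⟩
    exact weakAbc_of_holds hB (by linarith) h2 h3.le (by linarith) h
  have hQ' : WeakAbc →
      (∃ B : ℕ, 0 < B ∧ ∃ α β ε : ℝ, 1 ≤ α ∧ 0 ≤ β ∧ 0 < ε ∧ ε < 1 / 2 ∧ Holds B α β ε) := by
    intro h
    obtain ⟨B₀, hB⟩ := holds_of_weakAbc h 1 (1 / 4) (by norm_num) (by norm_num)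
    exact ⟨B₀ + 1, by omega, 1, 0, 1 / 4, le_refl _, le_refl _, by norm_num, by norm_num,
      hB (B₀ + 1) (by omega) 0 (le_refl _)⟩
  tfae_have 1 → 3 := fun h => fermat_of_weakAbc (hQ h)
  tfae_have 1 → 5 := fun h => mordell_of_weakAbc (hQ h)
  tfae_have 2 → 1 := by
    rintro ⟨p, q, r, hp, hq, hr, hpq, hpr, hqr, κ, K, h⟩
    exact hQ' (weakAbc_of_fermat hp hq hr hpq hpr hqr h)
  tfae_have 4 → 1 := by
    rintro ⟨m, n, hm, hn, hmn, κ, K, h⟩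
    exact hQ' (weakAbc_of_mordell hm hn hmn h)
  tfae_have 3 → 2 := by
    intro h
    obtain ⟨N, hN⟩ := h 1 one_pos
    obtain ⟨p, hpN, hp⟩ := Nat.exists_infinite_primes N
    obtain ⟨q, hqN, hq⟩ := Nat.exists_infinite_primes (p + 1)
    obtain ⟨r, hrN, hr⟩ := Nat.exists_infinite_primes (q + 1)
    obtain ⟨K, hK⟩ := hN p q r hpN (by omega) (by omega)
    exact ⟨p, q, r, hp.pos, hq.pos, hr.pos, (Nat.coprime_primes hp hq).2 (by omega),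
      (Nat.coprime_primes hp hr).2 (by omega), (Nat.coprime_primes hq hr).2 (by omega),
      1 + 1, K, hK⟩
  tfae_have 5 → 4 := by
    intro h
    obtain ⟨N, hN⟩ := h 1 one_pos
    obtain ⟨K, hK⟩ := hN (N + 1) (N + 2) (by omega) (by omega)
    refine ⟨N + 1, N + 2, by omega, by omega, ?_, 1, K, hK⟩
    have : Nat.Coprime (N + 1) (N + 1 + 1) := Nat.coprime_self_add_right.2 (Nat.coprime_one_right _)
    exact this
  tfae_finish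

end Pool.Agent.Results.MP_05f553_nt.OneEquation
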